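import Pool.Agent.H930R2.Metric
import Pool.Agent.H930R2.Centre

set_option autoImplicit false

/-!
# A blown-up Hirzebruch surface with positive holomorphic sectional curvature

The surface is the blow-up of the Hirzebruch surface `F₀ = P1 × P1` at the two points `(0, ∞)` and
`(∞, 0)`, realised as `{(x, y, u) ∈ P1 × P1 × P1 : u = x y}`.  It has six toric charts, and in each
of them the Kähler potential is `log P(|z₁|², |z₂|²)` for one and the same polynomial `P` with
positive integer coefficients (of degree 4 in each variable).
-/

open scoped Manifold ContDiff
open Pool.Agent.H930R2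

namespace Pool.Agent.Results.MP_3413ae_ag.PositiveHSC

/-- There is a compact connected complex surface `X`, together with a map `π : X → P1 × P1` which
is the blow-up of `F₀ = P1 × P1` at the two points `(0, ∞)` and `(∞, 0)`, such that `X` carries a
Kähler metric whose holomorphic sectional curvature is positive everywhere. -/
theorem result :
    ∃ (X : Type) (_ : TopologicalSpace X) (_ : T2Space X) (_ : CompactSpace X)
      (_ : ConnectedSpace X) (_ : ChartedSpace C2 X) (_ : IsManifold 𝓘(ℂ, C2) ω X)
      (π : X → P1 × P1),
      IsBlowUp π {(P1.of 0, P1.inf), (P1.inf, P1.of 0)} ∧ HasPositiveHSC X :=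
  ⟨X6, inferInstance, inferInstance, inferInstance, inferInstance, inferInstance, inferInstance,
    X6.proj, X6.isBlowUp, X6.hasPositiveHSC⟩

end Pool.Agent.Results.MP_3413ae_ag.PositiveHSC
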